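import Pool.Agent.Lib.MP_00f561_co.Defs

namespace Pool.Agent.Lib.MP_00f561_co

abbrev E3 := EuclideanSpace ℝ (Fin 3)

structure Circ where
  n0 : ℝ
  n1 : ℝ
  n2 : ℝ
  c0 : ℝ
  c1 : ℝ
  c2 : ℝ
  q : ℝ

def Circ.pts (K : Circ) : Set E3 :=
  {x | K.n0 * (x 0 - K.c0) + K.n1 * (x 1 - K.c1) + K.n2 * (x 2 - K.c2) = 0 ∧
    (x 0 - K.c0) ^ 2 + (x 1 - K.c1) ^ 2 + (x 2 - K.c2) ^ 2 = K.q}

theorem isCircle_pts (K : Circ) (hn : K.n0 ≠ 0 ∨ K.n1 ≠ 0 ∨ K.n2 ≠ 0) (hq : 0 < K.q) :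
    IsCircle K.pts := by
  let n : E3 := !₂[K.n0, K.n1, K.n2]
  let c : E3 := !₂[K.c0, K.c1, K.c2]
  have hn0 : n ≠ 0 := by
    intro h
    have h0 : n 0 = 0 := by rw [h]; rfl
    have h1 : n 1 = 0 := by rw [h]; rfl
    have h2 : n 2 = 0 := by rw [h]; rfl
    simp [n] at h0 h1 h2
    tauto
  haveI : Fact (Module.finrank ℝ E3 = 2 + 1) := ⟨by simp⟩
  refine ⟨AffineSubspace.mk' c (ℝ ∙ n)ᗮ, c, Real.sqrt K.q, ?_, AffineSubspace.self_mem_mk' _ _,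
    Real.sqrt_pos.mpr hq, ?_⟩
  · rw [AffineSubspace.direction_mk']
    exact Submodule.finrank_orthogonal_span_singleton hn0
  · ext x
    simp only [Circ.pts, Set.mem_setOf_eq, AffineSubspace.mem_mk',
      Submodule.mem_orthogonal_singleton_iff_inner_right, EuclideanSpace.dist_eq,
      Fin.sum_univ_three, Real.dist_eq, sq_abs]
    have e1 : inner ℝ n (x -ᵥ c) =
        K.n0 * (x 0 - K.c0) + K.n1 * (x 1 - K.c1) + K.n2 * (x 2 - K.c2) := by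
      simp [PiLp.inner_apply, Fin.sum_univ_three, n, c]
      ring
    have e2 : (x 0 - c 0) ^ 2 + (x 1 - c 1) ^ 2 + (x 2 - c 2) ^ 2 =
        (x 0 - K.c0) ^ 2 + (x 1 - K.c1) ^ 2 + (x 2 - K.c2) ^ 2 := by
      simp [c]
    rw [e1, e2, Real.sqrt_inj (by positivity) hq.le]

/-- determinant of the two normals and the difference of the centres -/
def Dt (K L : Circ) : ℝ :=
  K.n0 * (L.n1 * (K.c2 - L.c2) - L.n2 * (K.c1 - L.c1))
  + K.n1 * (L.n2 * (K.c0 - L.c0) - L.n0 * (K.c2 - L.c2))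
  + K.n2 * (L.n0 * (K.c1 - L.c1) - L.n1 * (K.c0 - L.c0))

def k1 (K L : Circ) : ℝ := K.n0 * (K.c0 - L.c0) + K.n1 * (K.c1 - L.c1) + K.n2 * (K.c2 - L.c2)

noncomputable def k3 (K L : Circ) : ℝ :=
  ((K.c0 - L.c0) ^ 2 + (K.c1 - L.c1) ^ 2 + (K.c2 - L.c2) ^ 2 - K.q + L.q) / 2

noncomputable def P0 (K L : Circ) : ℝ :=
  k1 K L * (L.n1 * (K.c2 - L.c2) - L.n2 * (K.c1 - L.c1)) + k3 K L * (K.n1 * L.n2 - K.n2 * L.n1)
noncomputable def P1 (K L : Circ) : ℝ :=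
  k1 K L * (L.n2 * (K.c0 - L.c0) - L.n0 * (K.c2 - L.c2)) + k3 K L * (K.n2 * L.n0 - K.n0 * L.n2)
noncomputable def P2 (K L : Circ) : ℝ :=
  k1 K L * (L.n0 * (K.c1 - L.c1) - L.n1 * (K.c0 - L.c0)) + k3 K L * (K.n0 * L.n1 - K.n1 * L.n0)

noncomputable def Gf (K L : Circ) : ℝ := P0 K L ^ 2 + P1 K L ^ 2 + P2 K L ^ 2 - L.q * Dt K L ^ 2

theorem cramer (K L : Circ) (x : E3) (hK : x ∈ K.pts) (hL : x ∈ L.pts) :
    Dt K L * (x 0 - L.c0) = P0 K L ∧ Dt K L * (x 1 - L.c1) = P1 K L ∧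
      Dt K L * (x 2 - L.c2) = P2 K L := by
  obtain ⟨a1, a2⟩ := hK
  obtain ⟨b1, b2⟩ := hL
  simp only [Dt, P0, P1, P2, k1, k3]
  refine ⟨?_, ?_, ?_⟩
  · linear_combination (L.n1 * (K.c2 - L.c2) - L.n2 * (K.c1 - L.c1)) * a1
      + ((K.c1 - L.c1) * K.n2 - (K.c2 - L.c2) * K.n1) * b1
      + (K.n1 * L.n2 - K.n2 * L.n1) / 2 * (b2 - a2)
  · linear_combination (L.n2 * (K.c0 - L.c0) - L.n0 * (K.c2 - L.c2)) * a1
      + ((K.c2 - L.c2) * K.n0 - (K.c0 - L.c0) * K.n2) * b1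
      + (K.n2 * L.n0 - K.n0 * L.n2) / 2 * (b2 - a2)
  · linear_combination (L.n0 * (K.c1 - L.c1) - L.n1 * (K.c0 - L.c0)) * a1
      + ((K.c0 - L.c0) * K.n1 - (K.c1 - L.c1) * K.n0) * b1
      + (K.n0 * L.n1 - K.n1 * L.n0) / 2 * (b2 - a2)

theorem disjoint_of_Gf (K L : Circ) (h : Gf K L ≠ 0) : Disjoint K.pts L.pts := by
  rw [Set.disjoint_left]
  intro x hK hL
  obtain ⟨e0, e1, e2⟩ := cramer K L x hK hL
  apply h
  have b2 := hL.2
  rw [Gf, ← e0, ← e1, ← e2]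
  linear_combination (Dt K L) ^ 2 * b2

theorem unique_of_mem (K L : Circ) (hD : Dt K L ≠ 0) (x : E3) (hK : x ∈ K.pts) (hL : x ∈ L.pts) :
    ∃! p, p ∈ K.pts ∩ L.pts := by
  refine ⟨x, ⟨hK, hL⟩, ?_⟩
  rintro y ⟨hyK, hyL⟩
  obtain ⟨e0, e1, e2⟩ := cramer K L x hK hL
  obtain ⟨f0, f1, f2⟩ := cramer K L y hyK hyL
  have g0 : y 0 = x 0 := by
    have := mul_left_cancel₀ hD (f0.trans e0.symm); linarith
  have g1 : y 1 = x 1 := by
    have := mul_left_cancel₀ hD (f1.trans e1.symm); linarith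
  have g2 : y 2 = x 2 := by
    have := mul_left_cancel₀ hD (f2.trans e2.symm); linarith
  ext i
  fin_cases i
  · exact g0
  · exact g1
  · exact g2

theorem unique_of_Gf (K L : Circ) (hD : Dt K L ≠ 0) (hG : Gf K L = 0) :
    ∃! p, p ∈ K.pts ∩ L.pts := by
  obtain ⟨u0, h0⟩ : ∃ u, Dt K L * u = P0 K L := ⟨P0 K L / Dt K L, by field_simp⟩
  obtain ⟨u1, h1⟩ : ∃ u, Dt K L * u = P1 K L := ⟨P1 K L / Dt K L, by field_simp⟩
  obtain ⟨u2, h2⟩ : ∃ u, Dt K L * u = P2 K L := ⟨P2 K L / Dt K L, by field_simp⟩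
  have s : u0 ^ 2 + u1 ^ 2 + u2 ^ 2 = L.q := by
    apply mul_left_cancel₀ (pow_ne_zero 2 hD)
    rw [Gf, ← h0, ← h1, ← h2] at hG
    linear_combination hG
  have t1 : K.n0 * u0 + K.n1 * u1 + K.n2 * u2 = k1 K L := by
    apply mul_left_cancel₀ hD
    have : K.n0 * P0 K L + K.n1 * P1 K L + K.n2 * P2 K L = Dt K L * k1 K L := by
      simp only [P0, P1, P2, Dt]; ring
    linear_combination K.n0 * h0 + K.n1 * h1 + K.n2 * h2 + this
  have t2 : L.n0 * u0 + L.n1 * u1 + L.n2 * u2 = 0 := by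
    apply mul_left_cancel₀ hD
    have : L.n0 * P0 K L + L.n1 * P1 K L + L.n2 * P2 K L = 0 := by
      simp only [P0, P1, P2]; ring
    linear_combination L.n0 * h0 + L.n1 * h1 + L.n2 * h2 + this
  have t3 : (K.c0 - L.c0) * u0 + (K.c1 - L.c1) * u1 + (K.c2 - L.c2) * u2 = k3 K L := by
    apply mul_left_cancel₀ hD
    have : (K.c0 - L.c0) * P0 K L + (K.c1 - L.c1) * P1 K L + (K.c2 - L.c2) * P2 K L
        = Dt K L * k3 K L := by
      simp only [P0, P1, P2, Dt]; ring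
    linear_combination (K.c0 - L.c0) * h0 + (K.c1 - L.c1) * h1 + (K.c2 - L.c2) * h2 + this
  apply unique_of_mem K L hD (!₂[L.c0 + u0, L.c1 + u1, L.c2 + u2])
  · simp only [k1, k3] at t1 t3
    constructor
    · simp
      linear_combination t1
    · simp
      linear_combination s - 2 * t3
  · constructor
    · simp
      linear_combination t2
    · simp
      linear_combination s

end Pool.Agent.Lib.MP_00f561_co
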