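import Pool.Agent.Lib.MP_00f561_co.Basic

set_option linter.unusedSimpArgs false

namespace Pool.Agent.Lib.MP_00f561_co

noncomputable def cB : Circ := ⟨602, 60, 53, (-1632889 / 1475252), (36174667 / 368813), (-1457379 / 737626), (51061903353 / 5901008)⟩
noncomputable def cyB : Circ := ⟨602, (-60), 53, (-1632889 / 1475252), (-36174667 / 368813), (-1457379 / 737626), (51061903353 / 5901008)⟩
noncomputable def cR : Circ := ⟨1847, (-170), 7, (-1730027 / 4587144), (-60145 / 134916), (717432575 / 4587144), (72089621877 / 6116192)⟩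
noncomputable def czR : Circ := ⟨1847, (-170), (-7), (-1730027 / 4587144), (-60145 / 134916), (-717432575 / 4587144), (72089621877 / 6116192)⟩
noncomputable def blue (s : ℝ) : Circ :=
  ⟨0, 1, 0, 100 * (1 - s ^ 2) / (1 + s ^ 2), 200 * s / (1 + s ^ 2), 0, 11664⟩
noncomputable def red (s : ℝ) : Circ :=
  ⟨0, 0, 1, 108 * (1 - s ^ 2) / (1 + s ^ 2), 0, 216 * s / (1 + s ^ 2), 10000⟩

def NR (s : ℝ) : ℝ :=
  615404517145 + 57510695651112 * s ^ 1 + (-515062177409996) * s ^ 2 + (-152022719490696) * s ^ 3 + 1901259914990838 * s ^ 4 + 280119621094776 * s ^ 5 + (-668540186397260) * s ^ 6 + (-65966301462744) * s ^ 7 + 45562493140441 * s ^ 8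

theorem G_B_red (s : ℝ) : Gf cB (red s) = (1 / 4) * NR s / (1 + s ^ 2) ^ 4 := by
  have hw : (1 + s ^ 2) ≠ 0 := by positivity
  simp only [Gf, P0, P1, P2, Dt, k1, k3, cB, cyB, cR, czR, blue, red, NR]
  field_simp
  ring

theorem D_B_red (s : ℝ) : Dt cB (red s) ≠ 0 := by
  have hw : (1 + s ^ 2) ≠ 0 := by positivity
  have e : Dt cB (red s) = -1 * ((65593 + 52633 * s ^ 2) / (1 + s ^ 2)) := by
    simp only [Dt, cB, cyB, cR, czR, blue, red]
    field_simp
    ring
  rw [e]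
  exact mul_ne_zero (by norm_num) (by positivity)

theorem G_yB_red (s : ℝ) : Gf cyB (red s) = (1 / 4) * NR s / (1 + s ^ 2) ^ 4 := by
  have hw : (1 + s ^ 2) ≠ 0 := by positivity
  simp only [Gf, P0, P1, P2, Dt, k1, k3, cB, cyB, cR, czR, blue, red, NR]
  field_simp
  ring

theorem D_yB_red (s : ℝ) : Dt cyB (red s) ≠ 0 := by
  have hw : (1 + s ^ 2) ≠ 0 := by positivity
  have e : Dt cyB (red s) = 1 * ((65593 + 52633 * s ^ 2) / (1 + s ^ 2)) := by
    simp only [Dt, cB, cyB, cR, czR, blue, red]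
    field_simp
    ring
  rw [e]
  exact mul_ne_zero (by norm_num) (by positivity)

def NB (s : ℝ) : ℝ :=
  142768239495649 + (-850371114642000) * s ^ 1 + (-4755341291091404) * s ^ 2 + 1295185743674000 * s ^ 3 + 11792561597801894 * s ^ 4 + (-986875648726000) * s ^ 5 + (-4808208581139404) * s ^ 6 + 886639492958000 * s ^ 7 + 149177890471649 * s ^ 8

theorem G_blue_R (s : ℝ) : Gf (blue s) cR = (1 / 4) * NB s / (1 + s ^ 2) ^ 4 := by
  have hw : (1 + s ^ 2) ≠ 0 := by positivity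
  simp only [Gf, P0, P1, P2, Dt, k1, k3, cB, cyB, cR, czR, blue, red, NB]
  field_simp
  ring

theorem D_blue_R (s : ℝ) : Dt (blue s) cR ≠ 0 := by
  have hw : (1 + s ^ 2) ≠ 0 := by positivity
  have e : Dt (blue s) cR = 1 * (((1158299 / 4) + (1152699 / 4) * s ^ 2) / (1 + s ^ 2)) := by
    simp only [Dt, cB, cyB, cR, czR, blue, red]
    field_simp
    ring
  rw [e]
  exact mul_ne_zero (by norm_num) (by positivity)

theorem G_blue_zR (s : ℝ) : Gf (blue s) czR = (1 / 4) * NB s / (1 + s ^ 2) ^ 4 := by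
  have hw : (1 + s ^ 2) ≠ 0 := by positivity
  simp only [Gf, P0, P1, P2, Dt, k1, k3, cB, cyB, cR, czR, blue, red, NB]
  field_simp
  ring

theorem D_blue_zR (s : ℝ) : Dt (blue s) czR ≠ 0 := by
  have hw : (1 + s ^ 2) ≠ 0 := by positivity
  have e : Dt (blue s) czR = -1 * (((1158299 / 4) + (1152699 / 4) * s ^ 2) / (1 + s ^ 2)) := by
    simp only [Dt, cB, cyB, cR, czR, blue, red]
    field_simp
    ring
  rw [e]
  exact mul_ne_zero (by norm_num) (by positivity)

def MB (s : ℝ) : ℝ :=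
  7047882676553 + (-140772236492000) * s ^ 1 + 957850256731412 * s ^ 2 + (-2801193588116000) * s ^ 3 + 3767369544464918 * s ^ 4 + (-2228698562756000) * s ^ 5 + 520714761441812 * s ^ 6 + (-30613211132000) * s ^ 7 + 493191031753 * s ^ 8

theorem G_blue_B (s : ℝ) : Gf (blue s) cB = (1 / 4) * MB s / (1 + s ^ 2) ^ 4 := by
  have hw : (1 + s ^ 2) ≠ 0 := by positivity
  simp only [Gf, P0, P1, P2, Dt, k1, k3, cB, cyB, cR, czR, blue, red, MB]
  field_simp
  ring

def MyB (s : ℝ) : ℝ :=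
  7047882676553 + 140772236492000 * s ^ 1 + 957850256731412 * s ^ 2 + 2801193588116000 * s ^ 3 + 3767369544464918 * s ^ 4 + 2228698562756000 * s ^ 5 + 520714761441812 * s ^ 6 + 30613211132000 * s ^ 7 + 493191031753 * s ^ 8

theorem G_blue_yB (s : ℝ) : Gf (blue s) cyB = (1 / 4) * MyB s / (1 + s ^ 2) ^ 4 := by
  have hw : (1 + s ^ 2) ≠ 0 := by positivity
  simp only [Gf, P0, P1, P2, Dt, k1, k3, cB, cyB, cR, czR, blue, red, MyB]
  field_simp
  ring

def MR (s : ℝ) : ℝ :=
  439312573541521 + (-5253345575755848) * s ^ 1 + 24633306067221652 * s ^ 2 + (-58801633227249624) * s ^ 3 + 77847332872443270 * s ^ 4 + (-58490002103505624) * s ^ 5 + 24379301475705748 * s ^ 6 + (-5166863402589000) * s ^ 7 + 429114855890449 * s ^ 8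

theorem G_red_R (s : ℝ) : Gf (red s) cR = (1 / 4) * MR s / (1 + s ^ 2) ^ 4 := by
  have hw : (1 + s ^ 2) ≠ 0 := by positivity
  simp only [Gf, P0, P1, P2, Dt, k1, k3, cB, cyB, cR, czR, blue, red, MR]
  field_simp
  ring

def MzR (s : ℝ) : ℝ :=
  439312573541521 + 5253345575755848 * s ^ 1 + 24633306067221652 * s ^ 2 + 58801633227249624 * s ^ 3 + 77847332872443270 * s ^ 4 + 58490002103505624 * s ^ 5 + 24379301475705748 * s ^ 6 + 5166863402589000 * s ^ 7 + 429114855890449 * s ^ 8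

theorem G_red_zR (s : ℝ) : Gf (red s) czR = (1 / 4) * MzR s / (1 + s ^ 2) ^ 4 := by
  have hw : (1 + s ^ 2) ≠ 0 := by positivity
  simp only [Gf, P0, P1, P2, Dt, k1, k3, cB, cyB, cR, czR, blue, red, MzR]
  field_simp
  ring

end Pool.Agent.Lib.MP_00f561_co
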