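import Mathlib

namespace Pool.Agent.Lib.MP_00f561_co

/-- A round circle in Euclidean 3-space: the points of an affine plane `P` at distance `ρ > 0`
from a centre `c ∈ P`. -/
def IsCircle (C : Set (EuclideanSpace ℝ (Fin 3))) : Prop :=
  ∃ (P : AffineSubspace ℝ (EuclideanSpace ℝ (Fin 3))) (c : EuclideanSpace ℝ (Fin 3)) (ρ : ℝ),
    Module.finrank ℝ P.direction = 2 ∧ c ∈ P ∧ 0 < ρ ∧ C = {x | x ∈ P ∧ dist x c = ρ}

end Pool.Agent.Lib.MP_00f561_co
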