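import Pool.Agent.Lib.MP_00f561_co.Roots

namespace Pool.Agent.Lib.MP_00f561_co

theorem blue_red (s t : ℝ) (h : (blue s).c0 ≠ (red t).c0) :
    ∃! p, p ∈ (blue s).pts ∩ (red t).pts := by
  have hs : (1 + s ^ 2) ≠ 0 := by positivity
  have ht : (1 + t ^ 2) ≠ 0 := by positivity
  apply unique_of_mem _ _ _ (!₂[(blue s).c0 + (red t).c0, (blue s).c1, (red t).c2])
  · constructor
    · simp [blue]
    · simp [blue, red]
      field_simp
      ring
  · constructor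
    · simp [red]
    · simp [blue, red]
      field_simp
      ring
  · intro h0
    apply h
    simp only [Dt, blue, red] at h0 ⊢
    linarith

theorem blue_blue (s t : ℝ) (h : (blue s).c1 ≠ (blue t).c1) :
    Disjoint (blue s).pts (blue t).pts := by
  rw [Set.disjoint_left]
  rintro x ⟨h1, -⟩ ⟨h2, -⟩
  apply h
  simp only [blue] at h1 h2 ⊢
  linarith

theorem red_red (s t : ℝ) (h : (red s).c2 ≠ (red t).c2) :
    Disjoint (red s).pts (red t).pts := by
  rw [Set.disjoint_left]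
  rintro x ⟨h1, -⟩ ⟨h2, -⟩
  apply h
  simp only [red] at h1 h2 ⊢
  linarith

theorem B_pos (x : E3) (h : x ∈ cB.pts) : 0 < x 1 := by
  obtain ⟨h1, h2⟩ := h
  simp only [cB] at h1 h2
  by_contra hc
  nlinarith [sq_nonneg (x 0 - (-1632889 / 1475252)), sq_nonneg (x 2 - (-1457379 / 737626))]

theorem yB_neg (x : E3) (h : x ∈ cyB.pts) : x 1 < 0 := by
  obtain ⟨h1, h2⟩ := h
  simp only [cyB] at h1 h2
  by_contra hc
  nlinarith [sq_nonneg (x 0 - (-1632889 / 1475252)), sq_nonneg (x 2 - (-1457379 / 737626))]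

theorem R_pos (x : E3) (h : x ∈ cR.pts) : 0 < x 2 := by
  obtain ⟨h1, h2⟩ := h
  simp only [cR] at h1 h2
  by_contra hc
  nlinarith [sq_nonneg (x 0 - (-1730027 / 4587144)), sq_nonneg (x 1 - (-60145 / 134916))]

theorem zR_neg (x : E3) (h : x ∈ czR.pts) : x 2 < 0 := by
  obtain ⟨h1, h2⟩ := h
  simp only [czR] at h1 h2
  by_contra hc
  nlinarith [sq_nonneg (x 0 - (-1730027 / 4587144)), sq_nonneg (x 1 - (-60145 / 134916))]

theorem B_yB : Disjoint cB.pts cyB.pts := by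
  rw [Set.disjoint_left]
  intro x h1 h2
  linarith [B_pos x h1, yB_neg x h2]

theorem R_zR : Disjoint cR.pts czR.pts := by
  rw [Set.disjoint_left]
  intro x h1 h2
  linarith [R_pos x h1, zR_neg x h2]

theorem B_R : ∃! p, p ∈ cB.pts ∩ cR.pts := by
  apply unique_of_Gf <;> norm_num [Gf, P0, P1, P2, Dt, k1, k3, cB, cR]

theorem B_zR : ∃! p, p ∈ cB.pts ∩ czR.pts := by
  apply unique_of_Gf <;> norm_num [Gf, P0, P1, P2, Dt, k1, k3, cB, czR]

theorem yB_R : ∃! p, p ∈ cyB.pts ∩ cR.pts := by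
  apply unique_of_Gf <;> norm_num [Gf, P0, P1, P2, Dt, k1, k3, cyB, cR]

theorem yB_zR : Disjoint cyB.pts czR.pts := by
  apply disjoint_of_Gf
  norm_num [Gf, P0, P1, P2, Dt, k1, k3, cyB, czR]

theorem sep_blue : ∀ i j : Fin 8, i ≠ j → blue_yh i ≤ blue_yl j ∨ blue_yh j ≤ blue_yl i := by decide
theorem sep_red : ∀ i j : Fin 8, i ≠ j → red_yh i ≤ red_yl j ∨ red_yh j ≤ red_yl i := by decide
theorem sep_x : ∀ i j : Fin 8, blue_xh i ≤ red_xl j ∨ red_xh j ≤ blue_xl i := by decide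

/-- eight members of a family followed by two extra circles -/
noncomputable def ext (f : Fin 8 → Circ) (K L : Circ) (i : Fin 10) : Circ :=
  if h : i.val < 8 then f ⟨i.val, h⟩ else if i.val = 8 then K else L

theorem ext_cases (f : Fin 8 → Circ) (K L : Circ) (i : Fin 10) :
    (∃ h : i.val < 8, ext f K L i = f ⟨i.val, h⟩) ∨ (i = 8 ∧ ext f K L i = K) ∨
      (i = 9 ∧ ext f K L i = L) := by
  by_cases h : i.val < 8
  · exact Or.inl ⟨h, by simp [ext, h]⟩
  · by_cases h8 : i.val = 8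
    · exact Or.inr (Or.inl ⟨Fin.ext h8, by simp [ext, h8]⟩)
    · exact Or.inr (Or.inr ⟨Fin.ext (by have := i.isLt; simp; omega), by simp [ext, h, h8]⟩)

theorem ne_of_pos_mul {c m s : ℝ} (hc : c ≠ 0) (hm : m ≠ 0) : c * m / (1 + s ^ 2) ^ 4 ≠ 0 :=
  div_ne_zero (mul_ne_zero hc hm) (by positivity)

theorem main : ∃ B R : Fin 10 → Set E3,
    (∀ i, IsCircle (B i)) ∧ (∀ j, IsCircle (R j)) ∧
    (∀ i j, i ≠ j → Disjoint (B i) (B j)) ∧ (∀ i j, i ≠ j → Disjoint (R i) (R j)) ∧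
    (∀ i j, (i, j) ≠ (9, 9) → ∃! p, p ∈ B i ∩ R j) ∧ Disjoint (B 9) (R 9) := by
  choose σ b1 b2 b3 b4 b5 b6 b7 using roots_blue
  choose τ r1 r2 r3 r4 r5 r6 r7 using roots_red
  have dBB : ∀ i, Disjoint (blue (σ i)).pts cB.pts := fun i =>
    disjoint_of_Gf _ _ (by rw [G_blue_B]; exact ne_of_pos_mul (by norm_num) (b6 i))
  have dByB : ∀ i, Disjoint (blue (σ i)).pts cyB.pts := fun i =>
    disjoint_of_Gf _ _ (by rw [G_blue_yB]; exact ne_of_pos_mul (by norm_num) (b7 i))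
  have dRR : ∀ i, Disjoint (red (τ i)).pts cR.pts := fun i =>
    disjoint_of_Gf _ _ (by rw [G_red_R]; exact ne_of_pos_mul (by norm_num) (r6 i))
  have dRzR : ∀ i, Disjoint (red (τ i)).pts czR.pts := fun i =>
    disjoint_of_Gf _ _ (by rw [G_red_zR]; exact ne_of_pos_mul (by norm_num) (r7 i))
  refine ⟨fun i => (ext (fun k => blue (σ k)) cB cyB i).pts,
    fun j => (ext (fun k => red (τ k)) cR czR j).pts, ?_, ?_, ?_, ?_, ?_, ?_⟩
  · intro i
    rcases ext_cases (fun k => blue (σ k)) cB cyB i with ⟨h, e⟩ | ⟨-, e⟩ | ⟨-, e⟩ <;>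
      simp only [e] <;> apply isCircle_pts <;> norm_num [blue, cB, cyB]
  · intro i
    rcases ext_cases (fun k => red (τ k)) cR czR i with ⟨h, e⟩ | ⟨-, e⟩ | ⟨-, e⟩ <;>
      simp only [e] <;> apply isCircle_pts <;> norm_num [red, cR, czR]
  · intro i j hij
    rcases ext_cases (fun k => blue (σ k)) cB cyB i with ⟨h, e⟩ | ⟨h, e⟩ | ⟨h, e⟩ <;>
      rcases ext_cases (fun k => blue (σ k)) cB cyB j with ⟨h', e'⟩ | ⟨h', e'⟩ | ⟨h', e'⟩ <;>
      simp only [e, e']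
    · apply blue_blue
      have hne : (⟨i.val, h⟩ : Fin 8) ≠ ⟨j.val, h'⟩ := fun c => hij (Fin.ext (by simpa using c))
      have a1 := b3 ⟨i.val, h⟩
      have a2 := b4 ⟨i.val, h⟩
      have a3 := b3 ⟨j.val, h'⟩
      have a4 := b4 ⟨j.val, h'⟩
      rcases sep_blue _ _ hne with c | c
      · have : ((blue_yh ⟨i.val, h⟩ : ℤ) : ℝ) ≤ (blue_yl ⟨j.val, h'⟩ : ℤ) := by exact_mod_cast c
        intro c'; linarith
      · have : ((blue_yh ⟨j.val, h'⟩ : ℤ) : ℝ) ≤ (blue_yl ⟨i.val, h⟩ : ℤ) := by exact_mod_cast c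
        intro c'; linarith
    · exact dBB _
    · exact dByB _
    · exact (dBB _).symm
    · exact absurd (h.trans h'.symm) hij
    · exact B_yB
    · exact (dByB _).symm
    · exact B_yB.symm
    · exact absurd (h.trans h'.symm) hij
  · intro i j hij
    rcases ext_cases (fun k => red (τ k)) cR czR i with ⟨h, e⟩ | ⟨h, e⟩ | ⟨h, e⟩ <;>
      rcases ext_cases (fun k => red (τ k)) cR czR j with ⟨h', e'⟩ | ⟨h', e'⟩ | ⟨h', e'⟩ <;>
      simp only [e, e']
    · apply red_red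
      have hne : (⟨i.val, h⟩ : Fin 8) ≠ ⟨j.val, h'⟩ := fun c => hij (Fin.ext (by simpa using c))
      have a1 := r3 ⟨i.val, h⟩
      have a2 := r4 ⟨i.val, h⟩
      have a3 := r3 ⟨j.val, h'⟩
      have a4 := r4 ⟨j.val, h'⟩
      rcases sep_red _ _ hne with c | c
      · have : ((red_yh ⟨i.val, h⟩ : ℤ) : ℝ) ≤ (red_yl ⟨j.val, h'⟩ : ℤ) := by exact_mod_cast c
        intro c'; linarith
      · have : ((red_yh ⟨j.val, h'⟩ : ℤ) : ℝ) ≤ (red_yl ⟨i.val, h⟩ : ℤ) := by exact_mod_cast c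
        intro c'; linarith
    · exact dRR _
    · exact dRzR _
    · exact (dRR _).symm
    · exact absurd (h.trans h'.symm) hij
    · exact R_zR
    · exact (dRzR _).symm
    · exact R_zR.symm
    · exact absurd (h.trans h'.symm) hij
  · intro i j hij
    rcases ext_cases (fun k => blue (σ k)) cB cyB i with ⟨h, e⟩ | ⟨h, e⟩ | ⟨h, e⟩ <;>
      rcases ext_cases (fun k => red (τ k)) cR czR j with ⟨h', e'⟩ | ⟨h', e'⟩ | ⟨h', e'⟩ <;>
      simp only [e, e']
    · apply blue_red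
      have a1 := b1 ⟨i.val, h⟩
      have a2 := b2 ⟨i.val, h⟩
      have a3 := r1 ⟨j.val, h'⟩
      have a4 := r2 ⟨j.val, h'⟩
      rcases sep_x ⟨i.val, h⟩ ⟨j.val, h'⟩ with c | c
      · have : ((blue_xh ⟨i.val, h⟩ : ℤ) : ℝ) ≤ (red_xl ⟨j.val, h'⟩ : ℤ) := by exact_mod_cast c
        intro c'; linarith
      · have : ((red_xh ⟨j.val, h'⟩ : ℤ) : ℝ) ≤ (blue_xl ⟨i.val, h⟩ : ℤ) := by exact_mod_cast c
        intro c'; linarith
    · exact unique_of_Gf _ _ (D_blue_R _) (by rw [G_blue_R, b5]; simp)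
    · exact unique_of_Gf _ _ (D_blue_zR _) (by rw [G_blue_zR, b5]; simp)
    · exact unique_of_Gf _ _ (D_B_red _) (by rw [G_B_red, r5]; simp)
    · exact B_R
    · exact B_zR
    · exact unique_of_Gf _ _ (D_yB_red _) (by rw [G_yB_red, r5]; simp)
    · exact yB_R
    · exact absurd (by rw [h, h']) hij
  · have e1 : ext (fun k => blue (σ k)) cB cyB 9 = cyB := by simp [ext]
    have e2 : ext (fun k => red (τ k)) cR czR 9 = czR := by simp [ext]
    simp only [e1, e2]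
    exact yB_zR

end Pool.Agent.Lib.MP_00f561_co
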